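import Mathlib
import Pool.Agent.K4H36.ST.BigB
import Pool.Agent.K4H36.TR.Ext

/-!
# Large decomposition groups over totally real fields
-/

set_option autoImplicit false
set_option linter.unusedSectionVars false

namespace Pool.Agent.K4H83.TR

open NumberField
open scoped Pointwise
open MulAction Polynomial
open Pool.Agent.K4H36.ST Pool.Agent.K4H36.TR

section ext

variable {K E : Type} [Field K] [NumberField K] [Field E] [NumberField E] [Algebra K E]

/-- the ramification index is divisible by the degree of an Eisenstein polynomial with a root -/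
lemma dvd_ram_eis {P : Ideal (𝓞 E)} [hP : P.IsPrime] {p : Ideal (𝓞 K)} [hp : p.IsPrime]
    [hl : P.LiesOver p] (hp0 : p ≠ ⊥) {f : (𝓞 K)[X]} (hf : f.Monic) {q : ℕ} (hq : q ≠ 0)
    (hfd : f.natDegree = q) (hfc : ∀ i < q, f.coeff i ∈ p) (hf0 : f.coeff 0 ∉ p ^ 2)
    {α : 𝓞 E} (hα : aeval α f = 0) : q ∣ P.ramificationIdx (𝓞 K) := by
  classical
  have hpE : p.map (algebraMap (𝓞 K) (𝓞 E)) ≠ ⊥ := Ideal.map_ne_bot_of_ne_bot hp0
  have hle : p.map (algebraMap (𝓞 K) (𝓞 E)) ≤ P := Ideal.map_le_of_le_comap (P.over_def p).le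
  have hP0 : P ≠ ⊥ := ne_bot_of_le_ne_bot hpE hle
  have hPp : Prime P := Ideal.prime_of_isPrime hP0 hP
  rw [Ideal.IsDedekindDomain.ramificationIdx_eq_multiplicity p P hpE]
  set e := multiplicity P (p.map (algebraMap (𝓞 K) (𝓞 E))) with he
  have hfinp : FiniteMultiplicity P (p.map (algebraMap (𝓞 K) (𝓞 E))) :=
    FiniteMultiplicity.of_prime_left hPp hpE
  -- the equation `α ^ q = - c_0 - α s`
  have hs : ∃ s ∈ p.map (algebraMap (𝓞 K) (𝓞 E)),
      α ^ q = -(algebraMap (𝓞 K) (𝓞 E) (f.coeff 0) + α * s) := by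
    obtain ⟨q', rfl⟩ := Nat.exists_eq_succ_of_ne_zero hq
    refine ⟨∑ i ∈ Finset.range q', algebraMap (𝓞 K) (𝓞 E) (f.coeff (i + 1)) * α ^ i, ?_, ?_⟩
    · apply Ideal.sum_mem
      intro i hi
      apply Ideal.mul_mem_right
      apply Ideal.mem_map_of_mem
      apply hfc
      have := Finset.mem_range.mp hi
      omega
    · rw [aeval_eq_sum_range, hfd, Finset.sum_range_succ, Finset.sum_range_succ'] at hα
      have h1 : f.coeff (q' + 1) = 1 := by
        have := hf.leadingCoeff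
        rwa [leadingCoeff, hfd] at this
      rw [show (q'.succ) = q' + 1 from rfl] at *
      rw [h1, one_smul, pow_zero] at hα
      simp only [Algebra.smul_def, mul_one] at hα
      have h2 : α * ∑ i ∈ Finset.range q', algebraMap (𝓞 K) (𝓞 E) (f.coeff (i + 1)) * α ^ i =
          ∑ i ∈ Finset.range q', algebraMap (𝓞 K) (𝓞 E) (f.coeff (i + 1)) * α ^ (i + 1) := by
        rw [Finset.mul_sum]
        apply Finset.sum_congr rfl
        intro i _
        ring
      rw [h2]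
      linear_combination hα
  obtain ⟨s, hsp, hs⟩ := hs
  have hpPe : p.map (algebraMap (𝓞 K) (𝓞 E)) ≤ P ^ e := by
    rw [← Ideal.dvd_iff_le]
    exact pow_multiplicity_dvd P _
  have hc0 : f.coeff 0 ∈ p := hfc 0 (Nat.pos_of_ne_zero hq)
  have hαP : α ∈ P := by
    apply hP.mem_of_pow_mem q
    rw [hs]
    apply neg_mem
    exact add_mem (hle (Ideal.mem_map_of_mem _ hc0)) (Ideal.mul_mem_left _ _ (hle hsp))
  -- `c_0` has valuation exactly `e`
  have hc0e : algebraMap (𝓞 K) (𝓞 E) (f.coeff 0) ∉ P ^ (e + 1) := by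
    intro hmem
    obtain ⟨J, hJ⟩ : p ∣ Ideal.span {f.coeff 0} := by
      rw [Ideal.dvd_iff_le, Ideal.span_singleton_le_iff_mem]
      exact hc0
    have hJ2 : ¬ J ≤ p := by
      intro h
      apply hf0
      have : f.coeff 0 ∈ Ideal.span {f.coeff 0} := Ideal.mem_span_singleton_self _
      rw [hJ] at this
      rw [pow_two]
      exact Ideal.mul_mono_right h this
    have hJE : ¬ P ∣ J.map (algebraMap (𝓞 K) (𝓞 E)) := by
      rw [Ideal.dvd_iff_le, Ideal.map_le_iff_le_comap]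
      have h2 := P.over_def p
      rw [Ideal.under_def] at h2
      rw [← h2]
      exact hJ2
    have h3 : P ^ (e + 1) ∣ p.map (algebraMap (𝓞 K) (𝓞 E)) * J.map (algebraMap (𝓞 K) (𝓞 E)) := by
      rw [← Ideal.map_mul, ← hJ, Ideal.map_span, Set.image_singleton, Ideal.dvd_iff_le,
        Ideal.span_singleton_le_iff_mem]
      exact hmem
    have h4 : P ^ (e + 1) ∣ p.map (algebraMap (𝓞 K) (𝓞 E)) :=
      hPp.pow_dvd_of_dvd_mul_right _ hJE h3
    have h5 := hfinp.pow_dvd_iff_le_multiplicity.mp h4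
    omega
  have hαe : α ^ q ∉ P ^ (e + 1) := by
    intro hmem
    apply hc0e
    have h1 : α * s ∈ P ^ (e + 1) := by
      rw [pow_succ', ]
      exact Ideal.mul_mem_mul hαP (hpPe hsp)
    have h2 : algebraMap (𝓞 K) (𝓞 E) (f.coeff 0) = -(α ^ q) - α * s := by
      rw [hs]; ring
    rw [h2]
    exact sub_mem (neg_mem hmem) h1
  have hαe2 : α ^ q ∈ P ^ e := by
    rw [hs]
    apply neg_mem
    exact add_mem (hpPe (Ideal.mem_map_of_mem _ hc0)) (Ideal.mul_mem_left _ _ (hpPe hsp))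
  have hα0 : Ideal.span {α} ≠ (0 : Ideal (𝓞 E)) := by
    rw [Ne, Ideal.zero_eq_bot, Ideal.span_singleton_eq_bot]
    rintro rfl
    apply hαe
    rw [zero_pow hq]
    exact zero_mem _
  have hfinα : FiniteMultiplicity P (Ideal.span {α}) := FiniteMultiplicity.of_prime_left hPp hα0
  have h6 : multiplicity P (Ideal.span {α} ^ q) = e := by
    apply multiplicity_eq_of_dvd_of_not_dvd
    · rw [Ideal.span_singleton_pow, Ideal.dvd_iff_le, Ideal.span_singleton_le_iff_mem]
      exact hαe2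
    · rw [Ideal.span_singleton_pow, Ideal.dvd_iff_le, Ideal.span_singleton_le_iff_mem]
      exact hαe
  rw [hfinα.multiplicity_pow hPp] at h6
  exact ⟨_, h6.symm⟩

end ext

section fields

variable {K N : Type} [Field K] [NumberField K] [Field N] [NumberField N] [Algebra K N]
  [IsGalois K N]

/-- divisibility of the index of a decomposition group -/
lemma index_dvd_eis {t q : ℕ} (ht : t ≠ 0) (hq : q ≠ 0) {f : (𝓞 K)[X]} (hf : f.Monic)
    (hfd : f.natDegree = q) (hfc : ∀ j : PT K t, ∀ i < q, f.coeff i ∈ j.1)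
    (hf0 : ∀ j : PT K t, f.coeff 0 ∉ j.1 ^ 2)
    {g : (𝓞 K)[X]} (hg : g.Monic) (hgd : g.natDegree = q)
    (hgi : ∀ j : PT K t, Irreducible (g.map (Ideal.Quotient.mk j.1))) {α β : 𝓞 N}
    (hα : aeval α f = 0) (hβ : aeval β g = 0) (H : Subgroup (N ≃ₐ[K] N))
    (hH : ∀ h ∈ H, h • α = α ∧ h • β = β) (w : Ideal (𝓞 N)) (hw : w.IsPrime)
    (htw : (t : 𝓞 N) ∈ w) :
    q * q * Nat.card (stabilizer (N ≃ₐ[K] N) w ⊓ H : Subgroup (N ≃ₐ[K] N))
      ∣ Nat.card (stabilizer (N ≃ₐ[K] N) w) := by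
  classical
  have hfin : FiniteDimensional K N := Module.Finite.of_restrictScalars_finite ℚ K N
  have hw0 : w ≠ ⊥ := ne_bot_of ht htw
  let E := IntermediateField.fixedField H
  let P : Ideal (𝓞 E) := w.under (𝓞 E)
  let p : Ideal (𝓞 K) := w.under (𝓞 K)
  have hl1 : w.LiesOver P := ⟨rfl⟩
  have hl2 : w.LiesOver p := ⟨rfl⟩
  have hl3 : P.LiesOver p := Ideal.LiesOver.tower_bot w P p
  have hp : p.IsPrime := Ideal.IsPrime.comap _
  have hP : P.IsPrime := Ideal.IsPrime.comap _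
  have htp : (t : 𝓞 K) ∈ p := by
    change algebraMap (𝓞 K) (𝓞 N) (t : 𝓞 K) ∈ w
    rw [map_natCast]
    exact htw
  have hp0 : p ≠ ⊥ := ne_bot_of ht htp
  let j : PT K t := ⟨p, hp, htp⟩
  -- the elements of `E`
  have hmem : ∀ x : 𝓞 N, (∀ h ∈ H, h • x = x) → ∃ y : 𝓞 E, algebraMap (𝓞 E) (𝓞 N) y = x := by
    intro x hx
    have hxE : (x : N) ∈ E := by
      rintro ⟨h, hh⟩
      exact congrArg (algebraMap (𝓞 N) N) (hx h hh)
    have hyi : IsIntegral ℤ (⟨(x : N), hxE⟩ : E) := by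
      have h4 : Function.Injective (algebraMap E N) := (algebraMap E N).injective
      rw [← isIntegral_algebraMap_iff (R := ℤ) h4]
      exact RingOfIntegers.isIntegral_coe x
    exact ⟨⟨⟨(x : N), hxE⟩, hyi⟩, RingOfIntegers.coe_injective rfl⟩
  obtain ⟨a, ha⟩ := hmem α (fun h hh => (hH h hh).1)
  obtain ⟨b, hb⟩ := hmem β (fun h hh => (hH h hh).2)
  have hinj : Function.Injective (algebraMap (𝓞 E) (𝓞 N)) := FaithfulSMul.algebraMap_injective _ _
  have ha2 : aeval a f = 0 := by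
    apply hinj
    rw [map_zero, ← hα, ← ha, aeval_algebraMap_apply]
  have hb2 : aeval b g = 0 := by
    apply hinj
    rw [map_zero, ← hβ, ← hb, aeval_algebraMap_apply]
  have h1 : q ∣ P.ramificationIdx (𝓞 K) := dvd_ram_eis (p := p) hp0 hf hq hfd (hfc j) (hf0 j) ha2
  have h2 : q ∣ P.inertiaDeg (𝓞 K) := by
    rw [← hgd]
    exact dvd_inert (p := p) hp0 hg (hgi j) hb2
  have h3 := card_stab (K := K) w hw0
  have h4 := card_stab (K := E) w hw0
  rw [card_stab_sub] at h4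
  rw [Ideal.ramificationIdx_tower (R := 𝓞 K) P w, Ideal.inertiaDeg_tower (R := 𝓞 K) P w] at h3
  rw [h3, h4]
  obtain ⟨r, hr⟩ := h1
  obtain ⟨s, hs⟩ := h2
  rw [hr, hs]
  exact ⟨r * s, by ring⟩

end fields

/-- a perturbation over `𝓞 K` of a monic polynomial which is totally real over `𝓞 L` -/
lemma exists_pert (K L : Type) [Field K] [NumberField K] [Field L] [NumberField L] [Algebra K L]
    {f : (𝓞 K)[X]} (hf : f.Monic) {m : ℕ} (hm : m ≠ 0) :
    ∃ f' : (𝓞 K)[X], f'.Monic ∧ f'.natDegree = f.natDegree ∧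
      (∀ i, (m : 𝓞 K) ∣ f'.coeff i - f.coeff i) ∧
      ∀ φ : 𝓞 L →+* ℝ, ((f'.map (algebraMap (𝓞 K) (𝓞 L))).map φ).Splits := by
  obtain ⟨M, hM⟩ := exists_real_dl (L := L) (hf.map (algebraMap (𝓞 K) (𝓞 L)))
    (q := m) (Nat.pos_of_ne_zero hm)
  refine ⟨f + dl (𝓞 K) f.natDegree m M, add_dl_monic hf m M, add_dl_deg hf m M, ?_, ?_⟩
  · intro i
    rw [coeff_add, add_sub_cancel_left]
    exact dl_coeff _ _ _ _
  · intro φ
    have h := hM φ
    rw [hf.natDegree_map] at h
    rwa [Polynomial.map_add, dl_map]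

/-- **Existence of totally real extensions with large decomposition groups.** -/
theorem exists_big_real (K L : Type) [Field K] [NumberField K] [Field L] [NumberField L]
    [Algebra K L] [IsGalois K L] [IsTotallyReal L] (n t : ℕ) (hn : n ≠ 0) (ht : t ≠ 0) :
    ∃ (N : Type) (_ : Field N) (_ : NumberField N) (_ : Algebra K N) (_ : Algebra L N)
      (_ : IsScalarTower K L N) (_ : IsGalois K N) (_ : IsTotallyReal N), Big K N n t := by
  classical
  obtain ⟨π, hπ⟩ := exists_pi K ht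
  -- the Eisenstein polynomials
  have hf : ∀ q : ℕ, ∃ f : (𝓞 K)[X], f.Monic ∧ (q ≠ 0 → f.natDegree = q) ∧
      (q ≠ 0 → ∀ j : PT K t, ∀ i < q, f.coeff i ∈ j.1) ∧
      (q ≠ 0 → ∀ j : PT K t, f.coeff 0 ∉ j.1 ^ 2) ∧
      ∀ φ : 𝓞 L →+* ℝ, ((f.map (algebraMap (𝓞 K) (𝓞 L))).map φ).Splits := by
    intro q
    by_cases hq : q = 0
    · refine ⟨1, monic_one, fun h => absurd hq h, fun h => absurd hq h, fun h => absurd hq h, ?_⟩
      intro φ
      simp
    obtain ⟨f', h1, h2, h3, h4⟩ := exists_pert K L (monic_X_pow_sub_C π hq) (m := t ^ 2)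
      (pow_ne_zero 2 ht)
    rw [natDegree_X_pow_sub_C] at h2
    have h5 : ∀ j : PT K t, ∀ i, f'.coeff i - (X ^ q - C π : (𝓞 K)[X]).coeff i ∈ j.1 ^ 2 := by
      intro j i
      obtain ⟨c, hc⟩ := h3 i
      rw [hc]
      apply Ideal.mul_mem_right
      push_cast
      exact Ideal.pow_mem_pow j.2.2 2
    refine ⟨f', h1, fun _ => h2, fun _ j i hi => ?_, fun _ j h => ?_, h4⟩
    · have h6 := Ideal.pow_le_self two_ne_zero (h5 j i)
      have h7 : (X ^ q - C π : (𝓞 K)[X]).coeff i ∈ j.1 := by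
        rw [coeff_sub, coeff_X_pow, if_neg (by omega), zero_sub]
        apply neg_mem
        rw [coeff_C]
        split_ifs
        · exact (hπ j).1
        · exact zero_mem _
      have h8 := add_mem h6 h7
      rwa [sub_add_cancel] at h8
    · apply (hπ j).2
      have h6 := sub_mem h (h5 j 0)
      rw [sub_sub_cancel, coeff_sub, coeff_X_pow, if_neg (Ne.symm hq), zero_sub, coeff_C,
        if_pos rfl] at h6
      simpa using neg_mem h6
  -- the polynomials which are irreducible modulo the primes above `t`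
  have hg : ∀ q : ℕ, ∃ g : (𝓞 K)[X], g.Monic ∧ (q ≠ 0 → g.natDegree = q) ∧
      (q ≠ 0 → ∀ j : PT K t, Irreducible (g.map (Ideal.Quotient.mk j.1))) ∧
      ∀ φ : 𝓞 L →+* ℝ, ((g.map (algebraMap (𝓞 K) (𝓞 L))).map φ).Splits := by
    intro q
    by_cases hq : q = 0
    · refine ⟨1, monic_one, fun h => absurd hq h, fun h => absurd hq h, ?_⟩
      intro φ
      simp
    obtain ⟨g, g1, g2, g3⟩ := exists_g K ht q hq
    obtain ⟨g', h1, h2, h3, h4⟩ := exists_pert K L g1 (m := t) ht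
    refine ⟨g', h1, fun _ => h2.trans g2, fun _ j => ?_, h4⟩
    have h5 : g'.map (Ideal.Quotient.mk j.1) = g.map (Ideal.Quotient.mk j.1) := by
      ext i
      rw [coeff_map, coeff_map, ← sub_eq_zero, ← map_sub, Ideal.Quotient.eq_zero_iff_mem]
      obtain ⟨c, hc⟩ := h3 i
      rw [hc]
      exact Ideal.mul_mem_right _ _ j.2.2
    rw [h5]
    exact g3 j
  choose fq hfq1 hfq2 hfq3 hfq4 hfq5 using hf
  choose gq hgq1 hgq2 hgq3 hgq4 using hg
  let toL : (𝓞 K)[X] → (𝓞 L)[X] := fun f => f.map (algebraMap (𝓞 K) (𝓞 L))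
  obtain ⟨N, i1, i2, i3, i4, i5, i6, i7, hN⟩ := exists_ext_real K L
    (↑((Finset.range (n + 1)).image (fun q => toL (fq q)) ∪
      (Finset.range (n + 1)).image (fun q => toL (gq q))) : Set (𝓞 L)[X]) (Finset.finite_toSet _) (by
      intro p hp
      rcases Finset.mem_union.mp (Finset.mem_coe.mp hp) with h | h
      · obtain ⟨q, -, rfl⟩ := Finset.mem_image.mp h
        exact (hfq1 q).map _
      · obtain ⟨q, -, rfl⟩ := Finset.mem_image.mp h
        exact (hgq1 q).map _) (by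
      intro p hp
      rcases Finset.mem_union.mp (Finset.mem_coe.mp hp) with h | h
      · obtain ⟨q, -, rfl⟩ := Finset.mem_image.mp h
        exact hfq5 q
      · obtain ⟨q, -, rfl⟩ := Finset.mem_image.mp h
        exact hgq4 q)
  refine ⟨N, i1, i2, i3, i4, i5, i6, i7, ?_⟩
  have hfin : FiniteDimensional K N := Module.Finite.of_restrictScalars_finite ℚ K N
  have hcomp : (algebraMap (𝓞 L) (𝓞 N)).comp (algebraMap (𝓞 K) (𝓞 L))
      = algebraMap (𝓞 K) (𝓞 N) := by
    apply RingHom.ext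
    intro x
    apply RingOfIntegers.coe_injective
    change algebraMap L N (algebraMap K L (x : K)) = algebraMap K N (x : K)
    rw [← IsScalarTower.algebraMap_apply K L N]
  -- roots
  have hroot : ∀ f : (𝓞 K)[X], f.Monic → f.natDegree ≠ 0 →
      (∃ s : Multiset (𝓞 N), (toL f).map (algebraMap (𝓞 L) (𝓞 N))
        = (s.map (fun a => X - C a)).prod) →
      ∃ r : 𝓞 N, (f.map (algebraMap (𝓞 K) (𝓞 N))).eval r = 0 := by
    rintro f hf hfd ⟨m, hm⟩
    simp only [toL] at hm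
    rw [Polynomial.map_map, hcomp] at hm
    have hcard : Multiset.card m = f.natDegree := by
      have := congrArg natDegree hm
      rw [hf.natDegree_map, natDegree_multiset_prod_X_sub_C_eq_card] at this
      exact this.symm
    obtain ⟨r, hr⟩ := Multiset.card_pos_iff_exists_mem.mp (by rw [hcard]; omega)
    refine ⟨r, ?_⟩
    rw [hm, eval_multiset_prod, Multiset.map_map]
    apply Multiset.prod_eq_zero
    rw [Multiset.mem_map]
    exact ⟨r, hr, by simp⟩
  intro w hw htw x hx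
  refine order_arith (stabilizer (N ≃ₐ[K] N) w) n hn ?_ x hx
  intro l a hl hla ha hmaxa
  have hq0 : l ^ a ≠ 0 := pow_ne_zero _ hl.ne_zero
  have hqn : l ^ a ∈ Finset.range (n + 1) := by
    rw [Finset.mem_range]
    have := Nat.le_of_dvd (Nat.pos_of_ne_zero hn) hla
    omega
  have hfd := hfq2 (l ^ a) hq0
  have hgd := hgq2 (l ^ a) hq0
  obtain ⟨α, hα⟩ := hroot (fq (l ^ a)) (hfq1 _) (by rw [hfd]; exact hq0)
    (hN _ (Finset.mem_coe.mpr (Finset.mem_union_left _ (Finset.mem_image_of_mem _ hqn))))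
  obtain ⟨β, hβ⟩ := hroot (gq (l ^ a)) (hgq1 _) (by rw [hgd]; exact hq0)
    (hN _ (Finset.mem_coe.mpr (Finset.mem_union_right _ (Finset.mem_image_of_mem _ hqn))))
  refine ⟨stabilizer (N ≃ₐ[K] N) α ⊓ stabilizer (N ≃ₐ[K] N) β, ?_, ?_⟩
  · refine index_dvd_eis ht hq0 (hfq1 (l ^ a)) hfd (hfq3 (l ^ a) hq0) (hfq4 (l ^ a) hq0)
      (hgq1 (l ^ a)) hgd (hgq3 (l ^ a) hq0) (α := α)
      (β := β) ?_ ?_ _ (fun h hh => ⟨(Subgroup.mem_inf.mp hh).1, (Subgroup.mem_inf.mp hh).2⟩) w hw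
      htw
    · rw [eval_map] at hα
      exact hα
    · rw [eval_map] at hβ
      exact hβ
  · rintro y - ⟨s, hs⟩
    have hcoef : ∀ (f : (𝓞 K)[X]) (k : ℕ), y • (f.map (algebraMap (𝓞 K) (𝓞 N))).coeff k
        = (f.map (algebraMap (𝓞 K) (𝓞 N))).coeff k := by
      intro f k
      rw [coeff_map]
      apply RingOfIntegers.coe_injective
      exact y.commutes _
    refine Subgroup.mem_inf.mpr ⟨?_, ?_⟩
    · exact pow_fix hl _ ((hfq1 (l ^ a)).map _).ne_zero
        (by rw [(hfq1 (l ^ a)).natDegree_map, hfd]) (hcoef _) hs hα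
    · exact pow_fix hl _ ((hgq1 (l ^ a)).map _).ne_zero
        (by rw [(hgq1 (l ^ a)).natDegree_map, hgd]) (hcoef _) hs hβ

end Pool.Agent.K4H83.TR
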