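import Mathlib
import Pool.Agent.K4H36.TR.Mach
import Pool.Agent.K4H83.TR.BigR

/-!
# Invariants of totally real fields which vanish on cyclic extensions with one bad place
-/

set_option autoImplicit false
set_option linter.unusedSectionVars false

namespace Pool.Agent.K4H36.TR.M

open NumberField Pool.Agent.R389 Pool.Agent.K4H74.ST Pool.Agent.K4H77.SL Pool.Agent.K4H36.ST
open Pool.Agent.K4H36.BK

theorem stmBig : StmBig := by
  intro K L _ _ _ _ _ _ _ n t hn ht
  exact Pool.Agent.K4H83.TR.exists_big_real K L n t hn ht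

theorem val_zero_real {K₀ L₀ : Type} [Field K₀] [Field L₀] [Algebra K₀ L₀] {M : Type}
    [AddCommGroup M] {B : BInv K₀ M} {m : ℕ} (hm : m ≠ 0) (hB : VanR B L₀ m)
    (htf : ∀ (x : M) (n : ℕ), n ≠ 0 → n • x = 0 → x = 0)
    (K L : Type) [Field K] [NumberField K] [Field L] [NumberField L] [Algebra K L] [IsGalois K L]
    [IsTotallyReal L] {i : K₀ →+* K} {j : L₀ →+* L} (hc : Cmp K₀ L₀ K L i j) : B.val K i = 0 :=
  val_zero_real' hm hB htf stmBig K L hc

end Pool.Agent.K4H36.TR.M
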